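import Pool.Agent.Run7.h207.GC.All

set_option autoImplicit false

/-!
# `ν(G) + ν(Ḡ) ≥ |G| + C √|G|` for almost all graphs

Project of helper207 with helpers 834, 227, 11, 344, 704, 382, 379, 547, 194, 590, 354.
-/

namespace Pool.Agent.Results.MP_23961f_co.AlmostAllGraphs

open Filter Topology

/-- `k` is the nullity of a real positive semidefinite matrix whose off-diagonal nonzero pattern is
exactly the edge set of `G` and which has the Strong Arnold Property: a symmetric `X` which is zero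
on the diagonal and on the edges of `G` and satisfies `A X = 0` is zero. -/
def IsSapNullity {n : ℕ} (G : SimpleGraph (Fin n)) (k : ℕ) : Prop :=
  ∃ A : Matrix (Fin n) (Fin n) ℝ, A.PosSemidef ∧
    (∀ i j : Fin n, i ≠ j → (A i j ≠ 0 ↔ G.Adj i j)) ∧
    (∀ X : Matrix (Fin n) (Fin n) ℝ, X.IsSymm →
      (∀ i j : Fin n, (i = j ∨ G.Adj i j) → X i j = 0) → A * X = 0 → X = 0) ∧
    A.rank + k = n

/-- The Colin de Verdière-type parameter `ν(G)`: the largest such nullity. -/
noncomputable def nu {n : ℕ} (G : SimpleGraph (Fin n)) : ℕ := sSup {k : ℕ | IsSapNullity G k}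

theorem bdd {n : ℕ} (G : SimpleGraph (Fin n)) : BddAbove {k : ℕ | IsSapNullity G k} := by
  refine ⟨n, ?_⟩
  rintro k ⟨A, -, -, -, h⟩
  omega

theorem le_nu {n : ℕ} (G : SimpleGraph (Fin n)) (r : ℕ)
    (h : Pool.Agent.Y404.GccSap.HasSap G r) : n ≤ nu G + r := by
  obtain ⟨A, h1, h2, h3, h4⟩ := h
  have h5 : A.rank ≤ n := by
    have := A.rank_le_card_width
    rwa [Fintype.card_fin] at this
  have h6 : n - A.rank ≤ nu G := le_csSup (bdd G) ⟨A, h1, h2, h3, by omega⟩
  omega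

/-- For every `C`, the proportion of the labelled graphs `G` on `n` vertices that satisfy
`ν(G) + ν(Ḡ) ≥ n + C √n` tends to `1`. -/
theorem result (C : ℝ) : Tendsto (fun n : ℕ =>
    ({G : SimpleGraph (Fin n) | (n : ℝ) + C * √n ≤ (nu G : ℝ) + nu Gᶜ}.ncard : ℝ) /
      (Nat.card (SimpleGraph (Fin n)) : ℝ)) atTop (𝓝 1) := by
  refine Pool.Agent.Run7.h207.GC.tendsto_of_AA Pool.Agent.Run7.h207.GC.aa (C / 2)
    (fun n G => (n : ℝ) + C * √n ≤ (nu G : ℝ) + nu Gᶜ) ?_
  intro n G d hd h1 h2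
  have h3 : (n : ℝ) ≤ nu G + d := by exact_mod_cast le_nu G d h1
  have h4 : (n : ℝ) ≤ nu Gᶜ + d := by exact_mod_cast le_nu Gᶜ d h2
  show (n : ℝ) + C * √n ≤ (nu G : ℝ) + nu Gᶜ
  linarith

end Pool.Agent.Results.MP_23961f_co.AlmostAllGraphs
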